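import Pool.Agent.Helper17.QD.Glue

/-!
# Project QD, glue, module FUF: `SU(1,1)` is conjugate to `SL(2,ℝ)`
-/

set_option autoImplicit false

open Filter Topology Matrix Set Metric MeasureTheory
open scoped ComplexConjugate ComplexOrder ENNReal

namespace Pool.Agent.Helper74.QL

open Pool.Agent.Helper17.QD
open Pool.Agent.Helper35.PM
open Pool.Agent.Helper68.QC (nq Bel InvB Intw)
open Pool.Agent.Helper20.QD (Fuch cj IsSU D DD SS dz dzb mob den)

private noncomputable def tt : ℂ := (1 - Complex.I) / 2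

private theorem tt_sq : tt * tt = -Complex.I / 2 := by
  unfold tt
  linear_combination (1 / 4 : ℂ) * Complex.I_sq

private noncomputable def Bm : SL :=
  ⟨!![Complex.I * tt, Complex.I * tt; -tt, tt], by
    rw [Matrix.det_fin_two_of]
    linear_combination (2 * Complex.I) * tt_sq - Complex.I_sq⟩

private theorem Bm_coe : (Bm : Mat) = !![Complex.I * tt, Complex.I * tt; -tt, tt] := rfl

private theorem conj_entries (A : SL) (hA : IsSU A) (i j : Fin 2) :
    ((Bm * A * Bm⁻¹ : SL) : Mat) i j ∈ Set.range ((↑) : ℝ → ℂ) := by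
  have h1 : ((Bm * A * Bm⁻¹ : SL) : Mat) = (Bm : Mat) * (A : Mat) * (Bm : Mat).adjugate := by
    rw [Matrix.SpecialLinearGroup.coe_mul, Matrix.SpecialLinearGroup.coe_mul,
      Matrix.SpecialLinearGroup.coe_inv]
  obtain ⟨a, ha⟩ : ∃ a, a = (A : Mat) 0 0 := ⟨_, rfl⟩
  obtain ⟨b, hb⟩ : ∃ b, b = (A : Mat) 0 1 := ⟨_, rfl⟩
  have h11 : (A : Mat) 1 1 = conj a := by rw [ha]; exact hA.1
  have h10 : (A : Mat) 1 0 = conj b := by rw [hb]; exact hA.2
  have hra : a + conj a = 2 * (a.re : ℂ) := by rw [Complex.add_conj]; push_cast; ring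
  have hrb : b + conj b = 2 * (b.re : ℂ) := by rw [Complex.add_conj]; push_cast; ring
  have hia : a - conj a = 2 * (a.im : ℂ) * Complex.I := by rw [Complex.sub_conj]; push_cast; ring
  have hib : b - conj b = 2 * (b.im : ℂ) * Complex.I := by rw [Complex.sub_conj]; push_cast; ring
  have ht := tt_sq
  have hI := Complex.I_sq
  rw [h1, Bm_coe, Matrix.adjugate_fin_two_of]
  fin_cases i <;> fin_cases j
  · refine ⟨a.re + b.re, ?_⟩
    simp only [Matrix.mul_apply, Fin.sum_univ_two, Matrix.of_apply, Matrix.cons_val', Matrix.cons_val_zero,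
      Matrix.cons_val_one, Fin.zero_eta, Fin.mk_one, Matrix.cons_val_fin_one]
    rw [h11, h10, ← ha, ← hb]
    push_cast
    linear_combination (-1 / 2 : ℂ) * (hra + hrb) -
      Complex.I * (a + conj a + b + conj b) * ht + ((a + conj a + b + conj b) / 2) * hI
  · refine ⟨a.im - b.im, ?_⟩
    simp only [Matrix.mul_apply, Fin.sum_univ_two, Matrix.of_apply, Matrix.cons_val', Matrix.cons_val_zero,
      Matrix.cons_val_one, Fin.zero_eta, Fin.mk_one, Matrix.cons_val_fin_one]
    rw [h11, h10, ← ha, ← hb]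
    push_cast
    linear_combination (Complex.I ^ 2 * ((a - conj a) - (b - conj b))) * ht -
      (Complex.I ^ 3 / 2) * (hia - hib) - ((a.im : ℂ) - b.im) * (Complex.I ^ 2 - 1) * hI
  · refine ⟨-(a.im + b.im), ?_⟩
    simp only [Matrix.mul_apply, Fin.sum_univ_two, Matrix.of_apply, Matrix.cons_val', Matrix.cons_val_zero,
      Matrix.cons_val_one, Fin.zero_eta, Fin.mk_one, Matrix.cons_val_fin_one]
    rw [h11, h10, ← ha, ← hb]
    push_cast
    linear_combination ((a - conj a) + (b - conj b)) * ht -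
      (Complex.I / 2) * (hia + hib) - ((a.im : ℂ) + b.im) * hI
  · refine ⟨a.re - b.re, ?_⟩
    simp only [Matrix.mul_apply, Fin.sum_univ_two, Matrix.of_apply, Matrix.cons_val', Matrix.cons_val_zero,
      Matrix.cons_val_one, Fin.zero_eta, Fin.mk_one, Matrix.cons_val_fin_one]
    rw [h11, h10, ← ha, ← hb]
    push_cast
    linear_combination (-1 / 2 : ℂ) * (hra - hrb) -
      Complex.I * (a + conj a - b - conj b) * ht + ((a + conj a - b - conj b) / 2) * hI

/-- FUF -/
theorem hFUF : StFUF := by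
  intro Γ _ σ hσ
  exact ⟨Bm, fun γ i j => conj_entries (σ γ) (hσ.su γ) i j⟩

end Pool.Agent.Helper74.QL
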